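import Mathlib
import Pool.Agent.R833.Arr
import Pool.Agent.R833.ArrLemmas

/-!
# A Saito-type criterion for strictly plus-one generated arrangements, without any assumption on
the projective dimension

For `l + 1` homogeneous logarithmic derivations of an arrangement in `K^l` the two conditions
`(i)` and `(ii)` of the question are equivalent, over every field and in every dimension.
-/

set_option autoImplicit false
set_option linter.unusedSectionVars false

namespace Pool.Agent.Results.MP_eea557_ag.SaitoCriterion

open MvPolynomial Pool.Agent.R833 Pool.Agent.R833.Arr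

universe u

/-- The derivations `φ_1, …, φ_{l+1}` of degrees `d_1, …, d_{l+1}` and the coefficients
`f_1, …, f_{l+1}` give a minimal graded free resolution
`0 → S[-d_{l+1}-1] → ⨁_{i ≤ l+1} S[-d_i] → D(A) → 0` in which the coefficient `f_{l+1}` of the
generator `φ_{l+1}` is a nonzero linear form. -/
structure IsSPOGResolution {K : Type u} [Field K] {l n : ℕ} (A : Fin n → Fin l → K)
    (d : Fin (l + 1) → ℕ)
    (φ : Fin (l + 1) → Derivation K (MvPolynomial (Fin l) K) (MvPolynomial (Fin l) K))
    (f : Fin (l + 1) → MvPolynomial (Fin l) K) : Prop where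
  /-- the `φ_i` are homogeneous derivations of degree `d_i` -/
  homogeneous : ∀ i, HomogeneousDer (φ i) (d i)
  /-- they generate `D(A)` -/
  generate : Submodule.span (MvPolynomial (Fin l) K) (Set.range φ) = logDer A
  /-- `f_i` is homogeneous of degree `d_{l+1} + 1 - d_i` (or zero); in particular `f_{l+1}` is a
  linear form -/
  coeff_homogeneous : ∀ i, f i = 0 ∨ ∃ m, m + d i = d (Fin.last l) + 1 ∧ (f i).IsHomogeneous m
  /-- the relation -/
  relation : ∑ i, f i • φ i = 0
  /-- every relation is a multiple of it -/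
  relations : ∀ c : Fin (l + 1) → MvPolynomial (Fin l) K, ∑ i, c i • φ i = 0 →
    ∃ r, ∀ i, c i = r * f i
  /-- minimality: the entries of the first map lie in the irrelevant ideal -/
  minimal : ∀ i, constantCoeff (f i) = 0
  /-- the linear form `f_{l+1}` is not zero -/
  last_ne_zero : f (Fin.last l) ≠ 0

/-- `A` is SPOG (strictly plus-one generated). -/
def SPOG {K : Type u} [Field K] {l n : ℕ} (A : Fin n → Fin l → K) : Prop :=
  ∃ d φ f, IsSPOGResolution A d φ f

/-- `f_1 θ_1 + ⋯ + f_{l+1} θ_{l+1} = 0` is a relation of minimal degree: the `f_i` have no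
nonconstant common divisor. -/
def IsMinimalRelation {K : Type u} [Field K] {l : ℕ}
    (θ : Fin (l + 1) → Derivation K (MvPolynomial (Fin l) K) (MvPolynomial (Fin l) K))
    (f : Fin (l + 1) → MvPolynomial (Fin l) K) : Prop :=
  ∑ i, f i • θ i = 0 ∧ ∀ h : MvPolynomial (Fin l) K, (∀ i, h ∣ f i) → ∃ c : K, h = C c

/-- Condition (i): `A` is SPOG, `θ_1, …, θ_{l+1}` is a minimal generating set of `D(A)` whose
unique (up to a nonzero constant) relation of minimal degree is `∑ g_i θ_i = 0`, and the
coefficient `g_{l+1}` of `θ_{l+1}` in it is a nonzero linear form. -/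
structure ConditionI {K : Type u} [Field K] {l n : ℕ} (A : Fin n → Fin l → K)
    (θ : Fin (l + 1) → Derivation K (MvPolynomial (Fin l) K) (MvPolynomial (Fin l) K))
    (g : Fin (l + 1) → MvPolynomial (Fin l) K) : Prop where
  /-- `A` is SPOG -/
  spog : SPOG A
  /-- the `θ_i` generate `D(A)` -/
  generate : Submodule.span (MvPolynomial (Fin l) K) (Set.range θ) = logDer A
  /-- no proper subfamily generates `D(A)` -/
  minimal : ∀ i, Submodule.span (MvPolynomial (Fin l) K) (θ '' {i}ᶜ) ≠ logDer A
  /-- `∑ g_i θ_i = 0` is a relation of minimal degree -/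
  relation : IsMinimalRelation θ g
  /-- it is the unique one up to a nonzero constant factor -/
  unique : ∀ f, IsMinimalRelation θ f → ∃ c : K, c ≠ 0 ∧ ∀ i, f i = C c * g i
  /-- `g_{l+1}` is a linear form -/
  last_homogeneous : (g (Fin.last l)).IsHomogeneous 1
  /-- `g_{l+1}` is not zero -/
  last_ne_zero : g (Fin.last l) ≠ 0

/-- Condition (ii): `g_{l+1}` is a nonzero linear form, `g_1, …, g_l` are homogeneous of positive
degree and have no non-trivial common divisor modulo `g_{l+1}`. -/
structure ConditionII {K : Type u} [Field K] {l : ℕ}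
    (g : Fin (l + 1) → MvPolynomial (Fin l) K) : Prop where
  /-- `g_{l+1}` is a linear form -/
  last_homogeneous : (g (Fin.last l)).IsHomogeneous 1
  /-- `g_{l+1}` is not zero -/
  last_ne_zero : g (Fin.last l) ≠ 0
  /-- `g_1, …, g_l ∈ S_{>0}` -/
  pos : ∀ i : Fin l, PosHomogeneous (g i.castSucc)
  /-- no non-trivial common divisor modulo `g_{l+1}` -/
  no_common_divisor : ¬ CommonDivisorMod (fun i : Fin l => g i.castSucc) (g (Fin.last l))

section proof

variable {K : Type u} [Field K] {l n : ℕ} {A : Fin n → Fin l → K}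
  {θ : Fin (l + 1) → Derivation K (MvPolynomial (Fin l) K) (MvPolynomial (Fin l) K)}
  {g : Fin (l + 1) → MvPolynomial (Fin l) K}

lemma dvd_of_mem {η : Derivation K (MvPolynomial (Fin l) K) (MvPolynomial (Fin l) K)}
    (h : η ∈ logDer A) (i : Fin n) : linearForm (A i) ∣ ∑ j, C (A i j) * η (X j) :=
  mem_logDer.1 h i

lemma exists_quotient (hA : IsArrangement A) (hθ : ∀ i, θ i ∈ logDer A) :
    ∃ g, IsMinorQuotient A θ g := by
  have h : ∀ i : Fin (l + 1), defPoly A ∣
      (-1) ^ (i.val + 1) * ((coeffMatrix θ).submatrix i.succAbove id).det := by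
    intro i
    refine Dvd.dvd.mul_left (defPoly_dvd_det hA _ ?_) _
    intro k j
    exact dvd_of_mem (hθ _) j
  choose g hg using h
  exact ⟨g, fun i => by rw [hg i, mul_comm]⟩

lemma quotient_unique (hA : IsArrangement A) {g g' : Fin (l + 1) → MvPolynomial (Fin l) K}
    (h : IsMinorQuotient A θ g) (h' : IsMinorQuotient A θ g') : g = g' := by
  funext i
  apply mul_right_cancel₀ (defPoly_ne_zero hA)
  rw [← h i, ← h' i]

lemma relation_of_quotient (hA : IsArrangement A) (hg : IsMinorQuotient A θ g) :
    ∑ i, g i • θ i = 0 := by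
  apply MvPolynomial.derivation_ext
  intro k
  apply mul_left_cancel₀ (defPoly_ne_zero hA)
  have h := laplace_rel (coeffMatrix θ) k
  have h2 : ∀ i : Fin (l + 1), defPoly A * (g i • θ i) (X k) =
      -((-1) ^ (i : ℕ) * coeffMatrix θ i k * ((coeffMatrix θ).submatrix i.succAbove id).det) := by
    intro i
    have := hg i
    rw [Derivation.smul_apply, smul_eq_mul]
    have e : coeffMatrix θ i k = θ i (X k) := rfl
    rw [e]
    linear_combination (-θ i (X k)) * this
  have h3 : (∑ i, g i • θ i) (X k) = ∑ i, (g i • θ i) (X k) := by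
    rw [← Derivation.coeFnAddMonoidHom_apply, map_sum, Finset.sum_apply]
    rfl
  rw [h3, Finset.mul_sum, Finset.sum_congr rfl fun i _ => h2 i, Finset.sum_neg_distrib, h]
  simp

/-- the square matrix of the first `l` derivations -/
noncomputable def topMatrix
    (θ : Fin (l + 1) → Derivation K (MvPolynomial (Fin l) K) (MvPolynomial (Fin l) K)) :
    Matrix (Fin l) (Fin l) (MvPolynomial (Fin l) K) :=
  Matrix.of fun i j => θ i.castSucc (X j)

lemma top_det (hg : IsMinorQuotient A θ g) :
    (-1) ^ (l + 1) * (topMatrix θ).det = g (Fin.last l) * defPoly A := by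
  have h := hg (Fin.last l)
  have e : (coeffMatrix θ).submatrix (Fin.last l).succAbove id = topMatrix θ := by
    ext i j
    simp [coeffMatrix, topMatrix]
  rw [e] at h
  simpa using h

lemma apply_sum {ι : Type*} (s : Finset ι) (c : ι → MvPolynomial (Fin l) K)
    (φ : ι → Derivation K (MvPolynomial (Fin l) K) (MvPolynomial (Fin l) K))
    (x : MvPolynomial (Fin l) K) : (∑ i ∈ s, c i • φ i) x = ∑ i ∈ s, c i * φ i x := by
  rw [← Derivation.coeFnAddMonoidHom_apply, map_sum, Finset.sum_apply]
  rfl

lemma relation_split (h : ∑ i, g i • θ i = 0) (k : Fin l) :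
    ∑ i : Fin l, g i.castSucc * θ i.castSucc (X k) + g (Fin.last l) * θ (Fin.last l) (X k) = 0 := by
  have h2 := congrArg (fun D => D (X k)) h
  simp only [Derivation.coe_zero, Pi.zero_apply] at h2
  rw [apply_sum, Fin.sum_univ_castSucc] at h2
  exact h2

lemma sign_sq : ((-1) ^ (l + 1) * (-1) ^ (l + 1) : MvPolynomial (Fin l) K) = 1 := by
  rw [← mul_pow]; simp

lemma top_det_ne_zero (hA : IsArrangement A) (hg : IsMinorQuotient A θ g)
    (h0 : g (Fin.last l) ≠ 0) : (topMatrix θ).det ≠ 0 := by
  intro h
  have := top_det hg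
  rw [h, mul_zero] at this
  exact mul_ne_zero h0 (defPoly_ne_zero hA) this.symm

/-- all relations are multiples of `g` -/
lemma relations_multiple (hA : IsArrangement A) (hg : IsMinorQuotient A θ g)
    (hlin : (g (Fin.last l)).IsHomogeneous 1) (h0 : g (Fin.last l) ≠ 0)
    (hnd : ∃ i : Fin l, ¬ g (Fin.last l) ∣ g i.castSucc)
    (f : Fin (l + 1) → MvPolynomial (Fin l) K) (hf : ∑ i, f i • θ i = 0) :
    ∃ r, ∀ i, f i = r * g i := by
  have hrel := relation_of_quotient hA hg
  have hdet := top_det_ne_zero hA hg h0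
  have h1 : (fun k : Fin l => g (Fin.last l) * f k.castSucc - f (Fin.last l) * g k.castSucc) = 0 := by
    apply Matrix.eq_zero_of_vecMul_eq_zero hdet
    funext k
    have e1 := relation_split hf k
    have e2 := relation_split hrel k
    rw [Matrix.vecMul, dotProduct, Pi.zero_apply]
    have e3 : ∀ i : Fin l, (g (Fin.last l) * f i.castSucc - f (Fin.last l) * g i.castSucc) *
        topMatrix θ i k = g (Fin.last l) * (f i.castSucc * θ i.castSucc (X k)) -
          f (Fin.last l) * (g i.castSucc * θ i.castSucc (X k)) := by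
      intro i
      have : topMatrix θ i k = θ i.castSucc (X k) := rfl
      rw [this]
      ring
    rw [Finset.sum_congr rfl fun i _ => e3 i, Finset.sum_sub_distrib, ← Finset.mul_sum,
      ← Finset.mul_sum]
    linear_combination g (Fin.last l) * e1 - f (Fin.last l) * e2
  have h2 : ∀ k : Fin l, g (Fin.last l) * f k.castSucc = f (Fin.last l) * g k.castSucc :=
    fun k => sub_eq_zero.1 (congrFun h1 k)
  obtain ⟨i, hi⟩ := hnd
  have hp := prime_of_homogeneous_one hlin h0
  have h3 : g (Fin.last l) ∣ f (Fin.last l) :=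
    (hp.dvd_or_dvd ⟨_, (h2 i).symm⟩).resolve_right hi
  obtain ⟨r, hr⟩ := h3
  refine ⟨r, fun k => ?_⟩
  refine Fin.lastCases ?_ (fun k => ?_) k
  · rw [hr, mul_comm]
  · apply mul_left_cancel₀ h0
    rw [h2 k, hr]
    ring

/-- condition (ii) implies generation -/
lemma generate_of_ii (hA : IsArrangement A) (hθ : ∀ i, θ i ∈ logDer A)
    (hg : IsMinorQuotient A θ g) (h : ConditionII g)
    {η : Derivation K (MvPolynomial (Fin l) K) (MvPolynomial (Fin l) K)} (hη : η ∈ logDer A) :
    η ∈ Submodule.span (MvPolynomial (Fin l) K) (Set.range θ) := by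
  set α := g (Fin.last l) with hα
  set Q := defPoly A with hQ
  set L := topMatrix θ with hL
  set v : Fin l → MvPolynomial (Fin l) K := fun j => η (X j) with hv
  set w : Fin l → MvPolynomial (Fin l) K := fun j => θ (Fin.last l) (X j) with hw
  have hα0 : α ≠ 0 := h.last_ne_zero
  have hQ0 : Q ≠ 0 := defPoly_ne_zero hA
  have hrel := relation_of_quotient hA hg
  have htop := top_det hg
  rw [← hα, ← hQ, ← hL] at htop
  have hLrow : ∀ k i, linearForm (A i) ∣ ∑ j, C (A i j) * L k j :=
    fun k i => dvd_of_mem (hθ k.castSucc) i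
  have hvrow : ∀ i, linearForm (A i) ∣ ∑ j, C (A i j) * v j := fun i => dvd_of_mem hη i
  have hwrow : ∀ i, linearForm (A i) ∣ ∑ j, C (A i j) * w j := fun i => dvd_of_mem (hθ _) i
  have hupd : ∀ (M : Matrix (Fin l) (Fin l) (MvPolynomial (Fin l) K)) (u : Fin l → MvPolynomial (Fin l) K)
      (k : Fin l), (∀ k i, linearForm (A i) ∣ ∑ j, C (A i j) * M k j) →
      (∀ i, linearForm (A i) ∣ ∑ j, C (A i j) * u j) →
      ∀ k' i, linearForm (A i) ∣ ∑ j, C (A i j) * M.updateRow k u k' j := by
    intro M u k hM hu k' i
    by_cases hk : k' = k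
    · subst hk
      simp only [Matrix.updateRow_self]
      exact hu i
    · simp only [Matrix.updateRow_ne hk]
      exact hM k' i
  have hb : ∀ k, Q ∣ (-1) ^ (l + 1) * (L.updateRow k v).det := fun k =>
    (defPoly_dvd_det hA _ (hupd L v k hLrow hvrow)).mul_left _
  choose b hb using hb
  -- `α v = ∑ b_k θ_k`
  have hexp : ∀ j, α * v j = ∑ k, b k * L k j := by
    intro j
    apply mul_left_cancel₀ hQ0
    have hc := cramer_row L v j
    rw [Finset.mul_sum]
    have e : ∀ k, Q * (b k * L k j) = (-1) ^ (l + 1) * ((L.updateRow k v).det * L k j) := by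
      intro k
      linear_combination (-L k j) * hb k
    rw [Finset.sum_congr rfl fun k _ => e k, ← Finset.mul_sum, ← hc]
    linear_combination (-v j) * htop
  have hexpw : ∀ j, α * w j = ∑ k : Fin l, (-g k.castSucc) * L k j := by
    intro j
    have := relation_split hrel j
    have e : ∑ k : Fin l, (-g k.castSucc) * L k j =
        - ∑ i : Fin l, g i.castSucc * θ i.castSucc (X j) := by
      rw [← Finset.sum_neg_distrib]
      refine Finset.sum_congr rfl fun k _ => ?_
      have : L k j = θ k.castSucc (X j) := rfl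
      rw [this]; ring
    rw [e]
    linear_combination this
  have hprop : ∀ i j : Fin l, α ∣ b i * g j.castSucc - b j * g i.castSucc := by
    intro i j
    by_cases hij : i = j
    · subst hij
      rw [sub_self]
      exact dvd_zero _
    · obtain ⟨r, hr⟩ := defPoly_dvd_det hA _
        (hupd (L.updateRow i v) w j (hupd L v i hLrow hvrow) hwrow)
      have e1 : ((L.updateRow i (α • v)).updateRow j (α • w)).det =
          α * α * ((L.updateRow i v).updateRow j w).det := by
        rw [Matrix.det_updateRow_smul, Matrix.updateRow_comm _ hij, Matrix.det_updateRow_smul,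
          Matrix.updateRow_comm _ (Ne.symm hij)]
        ring
      have e2 : α • v = ∑ k, b k • L k := by
        funext t
        rw [Pi.smul_apply, smul_eq_mul, hexp t, Finset.sum_apply]
        rfl
      have e3 : α • w = ∑ k : Fin l, (-g k.castSucc) • L k := by
        funext t
        rw [Pi.smul_apply, smul_eq_mul, hexpw t, Finset.sum_apply]
        rfl
      rw [e2, e3, det_two_rows L hij b (fun k => -g k.castSucc), hr] at e1
      refine ⟨-((-1) ^ (l + 1) * r), ?_⟩
      have hαQ : α * Q ≠ 0 := mul_ne_zero hα0 hQ0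
      apply mul_left_cancel₀ hαQ
      linear_combination (-(b i * g j.castSucc - b j * g i.castSucc)) * htop -
        (-1) ^ (l + 1) * e1
  obtain ⟨c, e, hce⟩ := prop_mod h.last_homogeneous hα0 (fun i : Fin l => g i.castSucc) b
    (fun i => ⟨_, (h.pos i).choose_spec.2⟩) h.no_common_divisor hprop
  have hη2 : η = ∑ k : Fin l, e k • θ k.castSucc + (-c) • θ (Fin.last l) := by
    apply MvPolynomial.derivation_ext
    intro j
    apply mul_left_cancel₀ hα0
    rw [Derivation.add_apply, apply_sum, Derivation.smul_apply, smul_eq_mul]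
    have e1 := hexp j
    have e2 := relation_split hrel j
    have e3 : ∑ k, b k * L k j = c * ∑ i : Fin l, g i.castSucc * θ i.castSucc (X j) +
        α * ∑ i : Fin l, e i * θ i.castSucc (X j) := by
      rw [Finset.mul_sum, Finset.mul_sum, ← Finset.sum_add_distrib]
      refine Finset.sum_congr rfl fun k _ => ?_
      have : L k j = θ k.castSucc (X j) := rfl
      rw [this, hce k]; ring
    have e4 : η (X j) = v j := rfl
    rw [e4]
    linear_combination e1 + e3 + c * e2
  rw [hη2]
  refine Submodule.add_mem _ (Submodule.sum_mem _ fun k _ => ?_) ?_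
  · exact Submodule.smul_mem _ _ (Submodule.subset_span ⟨_, rfl⟩)
  · exact Submodule.smul_mem _ _ (Submodule.subset_span ⟨_, rfl⟩)

lemma det_homogeneous (M : Matrix (Fin l) (Fin l) (MvPolynomial (Fin l) K)) (e : Fin l → ℕ)
    (h : ∀ i j, (M i j).IsHomogeneous (e i)) : M.det.IsHomogeneous (∑ i, e i) := by
  rw [Matrix.det_apply']
  apply IsHomogeneous.sum
  intro σ _
  have h1 := IsHomogeneous.prod (Finset.univ : Finset (Fin l)) (fun i => M (σ i) i)
    (fun i => e (σ i)) (fun i _ => h (σ i) i)
  rw [Equiv.sum_comp σ e] at h1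
  rcases Int.units_eq_one_or (Equiv.Perm.sign σ) with hs | hs
  · rw [hs]; simpa using h1
  · rw [hs]; simpa using h1.neg

/-- the degrees of the `g_i` -/
lemma degree_quotient (hA : IsArrangement A) (hg : IsMinorQuotient A θ g) {d : Fin (l + 1) → ℕ}
    (hd : ∀ i, HomogeneousDer (θ i) (d i)) (i : Fin (l + 1)) (hi : g i ≠ 0) :
    ∃ m, (g i).IsHomogeneous m ∧ m + n + d i = ∑ k, d k := by
  have h1 : ((coeffMatrix θ).submatrix i.succAbove id).det.IsHomogeneous
      (∑ k, d (i.succAbove k)) :=
    det_homogeneous _ _ fun k j => hd (i.succAbove k) j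
  have h2 : (g i * defPoly A).IsHomogeneous (∑ k, d (i.succAbove k)) := by
    rw [← hg i]
    rcases neg_one_pow_eq_or (MvPolynomial (Fin l) K) (i.val + 1) with h | h
    · rw [h, one_mul]; exact h1
    · rw [h, neg_one_mul]; exact h1.neg
  have h0 : g i * defPoly A ≠ 0 := mul_ne_zero hi (defPoly_ne_zero hA)
  obtain ⟨m, hm⟩ := homogeneous_of_dvd h2 h0 (dvd_mul_right _ _)
  refine ⟨m, hm, ?_⟩
  have h3 := (hm.mul (defPoly_homogeneous A)).inj_right h2 h0
  rw [Fin.sum_univ_succAbove d i, h3]
  ring

lemma constantCoeff_of_pos {f : MvPolynomial (Fin l) K} {m : ℕ} (hm : 0 < m)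
    (h : f.IsHomogeneous m) : constantCoeff f = 0 := by
  rw [constantCoeff_eq]
  apply h.coeff_eq_zero
  simp
  omega

lemma const_of_zero {f : MvPolynomial (Fin l) K} (h : f.IsHomogeneous 0) : ∃ c, f = C c := by
  have h1 := h.totalDegree_le
  exact ⟨_, (totalDegree_eq_zero_iff_eq_C (p := f)).mp (by omega)⟩

/-- a linear form is not constant -/
lemma not_const {α : MvPolynomial (Fin l) K} (h : α.IsHomogeneous 1) (h0 : α ≠ 0) (c : K) :
    α ≠ C c := by
  intro hc
  have h1 := h.totalDegree h0
  rw [hc, totalDegree_C] at h1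
  exact zero_ne_one h1

lemma i_of_ii (hl : 1 ≤ l) (hA : IsArrangement A) (hθ : ∀ i, θ i ∈ logDer A)
    (hom : ∀ i, ∃ d, HomogeneousDer (θ i) d)
    (hg : IsMinorQuotient A θ g) (h : ConditionII g) : ConditionI A θ g := by
  have hrel := relation_of_quotient hA hg
  have hnd : ∃ i : Fin l, ¬ g (Fin.last l) ∣ g i.castSucc := by
    by_contra hc
    push Not at hc
    apply h.no_common_divisor
    refine ⟨g (Fin.last l), ⟨1, one_pos, h.last_homogeneous⟩, fun i => ?_⟩
    obtain ⟨q, hq⟩ := hc i
    exact Ideal.mem_span_pair.2 ⟨q, 0, by show _ = g i.castSucc; rw [hq]; ring⟩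
  have hmul := relations_multiple hA hg h.last_homogeneous h.last_ne_zero hnd
  have hgen : Submodule.span (MvPolynomial (Fin l) K) (Set.range θ) = logDer A := by
    apply le_antisymm
    · rw [Submodule.span_le]
      rintro _ ⟨i, rfl⟩
      exact hθ i
    · intro η hη
      exact generate_of_ii hA hθ hg h hη
  have hcc : ∀ i, constantCoeff (g i) = 0 := by
    intro i
    refine Fin.lastCases ?_ (fun i => ?_) i
    · exact constantCoeff_of_pos one_pos h.last_homogeneous
    · obtain ⟨m, hm, hm2⟩ := h.pos i
      exact constantCoeff_of_pos hm hm2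
  choose d hd using hom
  have hmin : IsMinimalRelation θ g := by
    refine ⟨hrel, fun q hq => ?_⟩
    obtain ⟨k, hk⟩ := homogeneous_of_dvd h.last_homogeneous h.last_ne_zero (hq (Fin.last l))
    rcases Nat.eq_zero_or_pos k with rfl | hk0
    · exact const_of_zero hk
    · exfalso
      apply h.no_common_divisor
      refine ⟨q, ⟨k, hk0, hk⟩, fun i => ?_⟩
      obtain ⟨r, hr⟩ := hq i.castSucc
      exact Ideal.mem_span_pair.2 ⟨r, 0, by show _ = g i.castSucc; rw [hr]; ring⟩
  refine ⟨⟨d, θ, g, ⟨hd, hgen, ?_, hrel, hmul, hcc, h.last_ne_zero⟩⟩, hgen, ?_, hmin, ?_,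
    h.last_homogeneous, h.last_ne_zero⟩
  · intro i
    by_cases hi : g i = 0
    · exact Or.inl hi
    · right
      obtain ⟨m, hm, hm2⟩ := degree_quotient hA hg hd i hi
      obtain ⟨m', hm', hm2'⟩ := degree_quotient hA hg hd (Fin.last l) h.last_ne_zero
      have := hm'.inj_right h.last_homogeneous h.last_ne_zero
      subst this
      exact ⟨m, by omega, hm⟩
  · intro i hi
    have h1 : θ i ∈ Submodule.span (MvPolynomial (Fin l) K) (θ '' {i}ᶜ) := by
      rw [hi]; exact hθ i
    obtain ⟨c, hc, hc2⟩ := (Finsupp.mem_span_image_iff_linearCombination _).1 h1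
    have hci : c i = 0 := by
      by_contra hne
      have := (Finsupp.mem_supported _ c).1 hc (Finsupp.mem_support_iff.2 hne)
      exact this rfl
    obtain ⟨r, hr⟩ := hmul (fun k => c k - if k = i then 1 else 0) (by
      have e1 : ∀ k, (c k - if k = i then 1 else 0) • θ k = c k • θ k - if k = i then θ k else 0 := by
        intro k
        split_ifs with hk
        · apply MvPolynomial.derivation_ext
          intro j
          rw [Derivation.sub_apply, Derivation.smul_apply, Derivation.smul_apply, smul_eq_mul,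
            smul_eq_mul]
          ring
        · rw [sub_zero, sub_zero]
      rw [Finset.sum_congr rfl fun k _ => e1 k, Finset.sum_sub_distrib, Finset.sum_ite_eq',
        if_pos (Finset.mem_univ _), sub_eq_zero, ← hc2, Finsupp.linearCombination_apply,
        Finsupp.sum_fintype]
      intro k
      rw [zero_smul])
    have h2 := congrArg constantCoeff (hr i)
    rw [map_mul, hcc i, mul_zero] at h2
    simp [hci] at h2
  · intro f hf
    obtain ⟨r, hr⟩ := hmul f hf.1
    obtain ⟨c, hc⟩ := hf.2 r (fun i => ⟨g i, hr i⟩)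
    refine ⟨c, ?_, fun i => by rw [hr i, hc]⟩
    rintro rfl
    rw [C_0] at hc
    obtain ⟨c', hc'⟩ := hf.2 (X ⟨0, hl⟩) (fun i => by rw [hr i, hc, zero_mul]; exact dvd_zero _)
    exact not_const (isHomogeneous_X K _) (X_ne_zero _) c' hc'

lemma ii_of_i (hA : IsArrangement A) (hθ : ∀ i, θ i ∈ logDer A)
    (hom : ∀ i, ∃ d, HomogeneousDer (θ i) d)
    (hg : IsMinorQuotient A θ g) (h : ConditionI A θ g) : ConditionII g := by
  set α := g (Fin.last l) with hα
  have hα1 : α.IsHomogeneous 1 := h.last_homogeneous
  have hα0 : α ≠ 0 := h.last_ne_zero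
  have hrel := relation_of_quotient hA hg
  have hnd : ∃ i : Fin l, ¬ α ∣ g i.castSucc := by
    by_contra hc
    push Not at hc
    obtain ⟨c, hc⟩ := h.relation.2 α (fun i => by
      refine Fin.lastCases ?_ (fun i => ?_) i
      · exact dvd_refl _
      · exact hc i)
    exact not_const hα1 hα0 c hc
  have hmul := relations_multiple hA hg hα1 hα0 hnd
  refine ⟨hα1, hα0, ?_, ?_⟩
  · intro i
    by_cases hi : g i.castSucc = 0
    · exact ⟨1, one_pos, by rw [hi]; exact isHomogeneous_zero _ _ _⟩
    · choose d hd using hom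
      obtain ⟨m, hm, -⟩ := degree_quotient hA hg hd i.castSucc hi
      rcases Nat.eq_zero_or_pos m with rfl | hm0
      · exfalso
        obtain ⟨c, hc⟩ := const_of_zero hm
        have hc0 : c ≠ 0 := by
          rintro rfl
          exact hi (by rw [hc, C_0])
        apply h.minimal i.castSucc
        apply le_antisymm
        · rw [Submodule.span_le]
          rintro _ ⟨k, _, rfl⟩
          exact hθ k
        · rw [← h.generate, Submodule.span_le]
          rintro _ ⟨k, rfl⟩
          by_cases hk : k = i.castSucc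
          · subst hk
            have e : θ i.castSucc = ∑ k ∈ Finset.univ.erase i.castSucc,
                (-(C c⁻¹ * g k)) • θ k := by
              have h2 : (C c⁻¹ : MvPolynomial (Fin l) K) * C c = 1 := by
                rw [← C_mul, inv_mul_cancel₀ hc0, C_1]
              apply MvPolynomial.derivation_ext
              intro j
              have h1 := congrArg (fun D => D (X j)) hrel
              simp only [Derivation.coe_zero, Pi.zero_apply] at h1
              rw [apply_sum, ← Finset.add_sum_erase _ _ (Finset.mem_univ i.castSucc), hc] at h1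
              rw [apply_sum]
              have h3 : ∑ k ∈ Finset.univ.erase i.castSucc, -(C c⁻¹ * g k) * θ k (X j) =
                  -(C c⁻¹ * ∑ k ∈ Finset.univ.erase i.castSucc, g k * θ k (X j)) := by
                rw [Finset.mul_sum, ← Finset.sum_neg_distrib]
                refine Finset.sum_congr rfl fun k _ => ?_
                ring
              linear_combination (C c⁻¹) * h1 - (θ i.castSucc (X j)) * h2 - h3
            rw [e]
            refine Submodule.sum_mem _ fun k hk => Submodule.smul_mem _ _
              (Submodule.subset_span ⟨k, ?_, rfl⟩)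
            exact Finset.ne_of_mem_erase hk
          · exact Submodule.subset_span ⟨k, hk, rfl⟩
      · exact ⟨m, hm0, hm⟩
  · rintro ⟨q, ⟨k, hk0, hk⟩, hq⟩
    choose u v huv0 using fun i => Ideal.mem_span_pair.1 (hq i)
    have huv : ∀ i : Fin l, g i.castSucc = u i * q + v i * α := fun i => (huv0 i).symm
    have hpα := prime_of_homogeneous_one hα1 hα0
    have hnq : ¬ α ∣ q := by
      rintro ⟨q', hq'⟩
      obtain ⟨i, hi⟩ := hnd
      apply hi
      exact ⟨u i * q' + v i, by rw [huv i, hq']; ring⟩
    set ψ := ∑ i : Fin l, u i • θ i.castSucc with hψ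
    set φ := θ (Fin.last l) + ∑ i : Fin l, v i • θ i.castSucc with hφ
    have h1 : ∀ j, q * ψ (X j) = -(α * φ (X j)) := by
      intro j
      have e2 := relation_split hrel j
      rw [hψ, hφ, Derivation.add_apply, apply_sum, apply_sum]
      have e3 : ∑ i : Fin l, g i.castSucc * θ i.castSucc (X j) =
          q * ∑ i : Fin l, u i * θ i.castSucc (X j) + α * ∑ i : Fin l, v i * θ i.castSucc (X j) := by
        rw [Finset.mul_sum, Finset.mul_sum, ← Finset.sum_add_distrib]
        refine Finset.sum_congr rfl fun k _ => ?_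
        rw [huv k]; ring
      linear_combination e2 - e3
    have h2 : ∀ j, α ∣ ψ (X j) := by
      intro j
      have : α ∣ q * ψ (X j) := ⟨-φ (X j), by rw [h1 j]; ring⟩
      exact (hpα.dvd_or_dvd this).resolve_left hnq
    choose w hw using h2
    set ψ' : Derivation K (MvPolynomial (Fin l) K) (MvPolynomial (Fin l) K) :=
      mkDerivation K w with hψ'
    have hψ'X : ∀ j, ψ' (X j) = w j := fun j => mkDerivation_X K w j
    have h3 : ∀ j, φ (X j) = -(q * w j) := by
      intro j
      apply mul_left_cancel₀ hα0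
      have := h1 j
      rw [hw j] at this
      linear_combination this
    have hψmem : ψ ∈ logDer A :=
      Submodule.sum_mem _ fun i _ => Submodule.smul_mem _ _ (hθ _)
    have hφmem : φ ∈ logDer A :=
      Submodule.add_mem _ (hθ _) (Submodule.sum_mem _ fun i _ => Submodule.smul_mem _ _ (hθ _))
    have hψ'mem : ψ' ∈ logDer A := by
      rw [mem_logDer]
      intro i
      have hp := prime_linearForm (hA.1 i)
      have d1 := mem_logDer.1 hψmem i
      have d2 := mem_logDer.1 hφmem i
      have e1 : ∑ j, C (A i j) * ψ (X j) = α * ∑ j, C (A i j) * ψ' (X j) := by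
        rw [Finset.mul_sum]
        refine Finset.sum_congr rfl fun j _ => ?_
        rw [hw j, hψ'X j]; ring
      have e2 : ∑ j, C (A i j) * φ (X j) = -(q * ∑ j, C (A i j) * ψ' (X j)) := by
        rw [Finset.mul_sum, ← Finset.sum_neg_distrib]
        refine Finset.sum_congr rfl fun j _ => ?_
        rw [h3 j, hψ'X j]; ring
      rw [e1] at d1
      rw [e2, dvd_neg] at d2
      by_contra hn
      have f1 := (hp.dvd_or_dvd d1).resolve_right hn
      have f2 := (hp.dvd_or_dvd d2).resolve_right hn
      apply hnq
      obtain ⟨c, hc, he⟩ := dvd_homogeneous_one (linearForm_homogeneous (A i)) hα1 hα0 f1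
      have hu : IsUnit (C c : MvPolynomial (Fin l) K) := (IsUnit.mk0 _ hc).map C
      rw [he]
      exact (hu.mul_left_dvd).2 f2
    rw [← h.generate] at hψ'mem
    obtain ⟨c, hc⟩ := (Submodule.mem_span_range_iff_exists_fun _).1 hψ'mem
    obtain ⟨r, hr⟩ := hmul (fun i => Fin.lastCases (1 + q * c (Fin.last l))
      (fun i => v i + q * c i.castSucc) i) (by
        apply MvPolynomial.derivation_ext
        intro j
        rw [apply_sum, Fin.sum_univ_castSucc]
        simp only [Fin.lastCases_castSucc, Fin.lastCases_last, Derivation.coe_zero, Pi.zero_apply]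
        have e1 := h3 j
        rw [hφ, Derivation.add_apply, apply_sum] at e1
        have e2 := hψ'X j
        rw [← hc, apply_sum, Fin.sum_univ_castSucc] at e2
        have e3 : ∑ i : Fin l, (v i + q * c i.castSucc) * θ i.castSucc (X j) =
            ∑ i : Fin l, v i * θ i.castSucc (X j) +
              q * ∑ i : Fin l, c i.castSucc * θ i.castSucc (X j) := by
          rw [Finset.mul_sum, ← Finset.sum_add_distrib]
          refine Finset.sum_congr rfl fun k _ => ?_
          ring
        linear_combination e1 + q * e2 + e3)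
    have h4 := congrArg constantCoeff (hr (Fin.last l))
    rw [← hα] at h4
    simp only [Fin.lastCases_last, map_add, map_mul, map_one, constantCoeff_of_pos hk0 hk,
      constantCoeff_of_pos one_pos hα1, zero_mul, mul_zero, add_zero] at h4
    exact one_ne_zero h4

end proof

/-- **A Saito-type criterion for SPOG arrangements, with no assumption on the projective
dimension.** Let `K` be a field, `l ≥ 1`, `A` a central arrangement in `K^l` and
`θ_1, …, θ_{l+1} ∈ D(A)` homogeneous. Then there is a unique family `g_1, …, g_{l+1}` with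
`(-1)^i det M_i = g_i Q(A)`, and for it the conditions (i) and (ii) are equivalent. -/
theorem result : ∀ (K : Type u) [Field K] (l n : ℕ), 1 ≤ l → ∀ (A : Fin n → Fin l → K),
    IsArrangement A →
    ∀ θ : Fin (l + 1) → Derivation K (MvPolynomial (Fin l) K) (MvPolynomial (Fin l) K),
      (∀ i, θ i ∈ logDer A) → (∀ i, ∃ d, HomogeneousDer (θ i) d) →
        (∃! g, IsMinorQuotient A θ g) ∧
        ∀ g, IsMinorQuotient A θ g → (ConditionI A θ g ↔ ConditionII g) := by
  intro K _ l n hl A hA θ hθ hom
  obtain ⟨g, hg⟩ := exists_quotient hA hθ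
  refine ⟨⟨g, hg, fun g' hg' => quotient_unique hA hg' hg⟩, fun g hg => ?_⟩
  exact ⟨ii_of_i hA hθ hom hg, i_of_ii hl hA hθ hom hg⟩

end Pool.Agent.Results.MP_eea557_ag.SaitoCriterion
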